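import Pool.Agent.Helper52.MA.Defs2

/-!
# No new reals, and every real gets a place (module MA-17)
-/

set_option autoImplicit false
set_option linter.unusedSectionVars false

namespace Pool.Agent.Helper52.MA

open Set Pool.Agent.Helper33.HM Pool.Agent.Helper33.HMG Pool.Agent.Helper32.HB

/-- A condition decides a regular open set after strengthening. -/
theorem real_decide {P : Type*} [Preorder P] (U : RO P) (p : P) : ∃ q, q ≤ p ∧ (q ∈ U ∨ q ∈ Uᶜ) := by
  by_cases h : ∃ q, q ≤ p ∧ q ∈ U
  · obtain ⟨q, hq, hU⟩ := h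
    exact ⟨q, hq, Or.inl hU⟩
  · exact ⟨p, le_refl _, Or.inr (RO.mem_compl.2 fun q hq hU => h ⟨q, hq, hU⟩)⟩

/-- A decreasing sequence of conditions has a lower bound. -/
theorem real_lower {Ω : Type} (c : ℕ → PH Ω) (hc : ∀ n, c (n + 1) ≤ c n) :
    ∃ q : PH Ω, ∀ n, q ≤ c n := by
  classical
  have hanti : ∀ m n, m ≤ n → c n ≤ c m := fun m n h => antitone_nat_of_succ_le hc h
  refine ⟨⟨fun x => if h : ∃ n, (c n).f x ≠ none then (c (Nat.find h)).f x else none, ?_⟩, ?_⟩
  · have hu : {x | (if h : ∃ n, (c n).f x ≠ none then (c (Nat.find h)).f x else none) ≠ none} ⊆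
        ⋃ n, {x | (c n).f x ≠ none} := by
      intro x hx
      simp only [mem_ofPred_eq] at hx
      by_cases h : ∃ n, (c n).f x ≠ none
      · obtain ⟨n, hn⟩ := h
        exact mem_iUnion.2 ⟨n, hn⟩
      · rw [dif_neg h] at hx
        exact absurd rfl hx
    exact (countable_iUnion fun n => (c n).cnt).mono hu
  · intro n x a hx
    have h : ∃ n, (c n).f x ≠ none := ⟨n, by rw [hx]; exact Option.some_ne_none _⟩
    change (if h : ∃ n, (c n).f x ≠ none then (c (Nat.find h)).f x else none) = some a
    rw [dif_pos h]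
    obtain ⟨b, hb⟩ := Option.ne_none_iff_exists'.1 (Nat.find_spec h)
    rcases le_total n (Nat.find h) with h1 | h1
    · exact hanti _ _ h1 x a hx
    · have h2 := hanti _ _ h1 x b hb
      rw [hx] at h2
      rw [hb, h2]

section CH

variable {Ω : Type} [LinearOrder Ω] [WellFoundedLT Ω]

/-- The forcing with countable conditions adds no new reals. -/
theorem exists_real (σ : Nm (PH Ω)) (p : PH Ω) : ∃ q, q ≤ p ∧ ∃ a : Set ℕ,
    ∀ n, (n ∈ a → q ∈ memv (numN n) σ) ∧ (n ∉ a → q ∈ (memv (numN n) σ)ᶜ) := by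
  classical
  choose F hF hF' using fun (n : ℕ) (r : PH Ω) => real_decide (memv (numN n) σ) r
  let c : ℕ → PH Ω := fun n => Nat.rec p (fun n r => F n r) n
  have hc : ∀ n, c (n + 1) ≤ c n := fun n => hF n (c n)
  have hd : ∀ n, c (n + 1) ∈ memv (numN n) σ ∨ c (n + 1) ∈ (memv (numN n) σ)ᶜ :=
    fun n => hF' n (c n)
  obtain ⟨q, hq⟩ := real_lower c hc
  refine ⟨q, hq 0, {n | c (n + 1) ∈ memv (numN n) σ}, fun n => ⟨fun h => ?_, fun h => ?_⟩⟩
  · exact RO.mem_lower (hq (n + 1)) h
  · exact RO.mem_lower (hq (n + 1)) ((hd n).resolve_left h)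

/-- Every real gets a place. -/
theorem exists_place (hu : ¬ Countable Ω) (a : Set ℕ) (p : PH Ω) :
    ∃ q, q ≤ p ∧ ∃ z : Ω, q.f z = some a := by
  classical
  have hz : ∃ z, p.f z = none := by
    by_contra h
    push Not at h
    apply hu
    have : {x | p.f x ≠ none} = (Set.univ : Set Ω) := eq_univ_of_forall h
    have h2 := p.cnt
    rw [this] at h2
    exact countable_univ_iff.1 h2
  obtain ⟨z, hz⟩ := hz
  refine ⟨⟨Function.update p.f z (some a), ?_⟩, ?_, z, ?_⟩
  · refine (p.cnt.union (countable_singleton z)).mono ?_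
    intro x hx
    simp only [mem_ofPred_eq] at hx
    by_cases h : x = z
    · right
      exact h
    · left
      rw [Function.update_of_ne h] at hx
      exact hx
  · intro x b hx
    change Function.update p.f z (some a) x = some b
    by_cases h : x = z
    · subst h
      rw [hz] at hx
      exact absurd hx (by simp)
    · rw [Function.update_of_ne h]
      exact hx
  · change Function.update p.f z (some a) z = some a
    exact Function.update_self _ _ _

end CH

end Pool.Agent.Helper52.MA
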